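import Pool.Agent.H234R4.BSD.Two

/-!
# More points modulo `p` mean a larger analytic rank: comparison of two elliptic curves

Birch and Swinnerton-Dyer were led to their conjecture by the idea that a curve of larger rank has
more points modulo the primes `p`, as measured by the products `EP(x) = ∏_{p ≤ x} #C(𝔽_p) / p`.
Here this comparison is proved, unconditionally and for any two curves, with the analytic rank in
place of the rank.  Let `F₁, F₂` be the entire continuations of `L(C₁, s)`, `L(C₂, s)`, and suppose
that every real zero `σ > 1` of `F₂` (none is known or expected) is a zero of `F₁` of at least the same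
order.  If, for some real `κ`, `EP₁(x) = O((log x) ^ κ EP₂(x))`, or if this holds only for
the logarithmic averages of the logarithms, then `F₁` and `F₂` have the same zeros, with the
same multiplicities, in the half plane `Re s > 1`, and

`ord_{s=1} L(C₁, s) ≤ ord_{s=1} L(C₂, s) + κ`.

In other words, if `ord_{s=1} L(C₁, s) > ord_{s=1} L(C₂, s)` then `EP₁(x) / EP₂(x)` is unbounded, it is
infinitely often larger than any power of `log x` with exponent smaller than the difference of the
analytic ranks, and so are the logarithmic averages.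

Proof: if the averages are bounded, `F₁ = F₂ exp (W + (s - 1)² D)` with `W` holomorphic for `Re s > 1`
and `D` a Dirichlet series with nonnegative coefficients; at the real point of the line of
absolute convergence of `D` the positivity of `D` gives `ord F₁ ≤ ord F₂`, so that the quotient
`F₁ / F₂` has a holomorphic logarithm there, which contradicts Landau's theorem.  The relation between
`F` and the products (including the sharp Hasse bound) is taken from the library
`Pool.Agent.H438R3.BSD` of `MP_696deb_nt.OneSidedProducts` (helper438).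
-/

set_option autoImplicit false

open Filter

namespace Pool.Agent.Results.MP_696deb_nt.PointComparison

open Pool.Agent.H438R3.BSD Pool.Agent.H234R4.BSD

/-- Let `Cᵢ : y² = x³ + aᵢ x + bᵢ` be elliptic curves over `ℚ`, and `Fᵢ` the entire function which
extends the (incomplete) `L`-series of `Cᵢ`. Then `Fᵢ` vanishes to a finite order `mᵢ` at `s = 1`, and
if `ord_σ F₂ ≤ ord_σ F₁` for all real `σ > 1`, then for every real `κ < m₁ - m₂` (for every real `κ` if
`F₁` and `F₂` do not have the same zeros with multiplicities in `Re s > 1`) and every `C`, the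
logarithmic average of `log (EP₁ n / EP₂ n) - κ log log n` over `2 ≤ n ≤ x` is larger than `C`, and
`EP₁ x > C (log x) ^ κ EP₂ x`, for arbitrarily large `x`. -/
theorem result (a₁ b₁ a₂ b₂ : ℤ) (_h₁ : 4 * a₁ ^ 3 + 27 * b₁ ^ 2 ≠ 0)
    (_h₂ : 4 * a₂ ^ 3 + 27 * b₂ ^ 2 ≠ 0) (F₁ F₂ : ℂ → ℂ) (hF₁ : IsL a₁ b₁ F₁) (hF₂ : IsL a₂ b₂ F₂) :
    ∃ m₁ m₂ : ℕ, analyticOrderAt F₁ 1 = m₁ ∧ analyticOrderAt F₂ 1 = m₂ ∧
    ((∀ σ : ℝ, 1 < σ → analyticOrderAt F₂ σ ≤ analyticOrderAt F₁ σ) →
      ∀ κ : ℝ, (κ < (m₁ : ℝ) - m₂ ∨
        ∃ ρ : ℂ, 1 < ρ.re ∧ analyticOrderAt F₁ ρ ≠ analyticOrderAt F₂ ρ) → ∀ C : ℝ,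
      (∃ᶠ x : ℕ in atTop, C < CA a₁ b₁ a₂ b₂ κ x) ∧
      ∃ᶠ x : ℕ in atTop, C * Real.log x ^ κ * EP a₂ b₂ x < EP a₁ b₁ x) :=
  main12 hF₁ hF₂

end Pool.Agent.Results.MP_696deb_nt.PointComparison
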